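import Pool.Agent.H547.V1.Stm
import Pool.Agent.H547.Harm

set_option autoImplicit false
set_option linter.unusedSectionVars false

/-!
The Fermat quotient congruence: `3^(p-1) ≡ 1 - (2/3) p H_{p/3} (mod p^2)`.
-/

namespace Pool.Agent.H286.SUN35H3

open Finset Pool.Agent.R439.PL Pool.Agent.H547

variable {p : ℕ} [hp : Fact p.Prime]

theorem prod_one_add {ι : Type*} {s : Finset ι} {x : ι → ℚ} (hx : ∀ i ∈ s, x i ∈ Zp p) :
    I p 2 (∏ i ∈ s, (1 + (p : ℚ) * x i) - (1 + (p : ℚ) * ∑ i ∈ s, x i)) := by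
  classical
  induction s using Finset.induction_on with
  | empty =>
    rw [prod_empty, sum_empty, mul_zero, add_zero, sub_self]
    exact I.zero
  | insert a s ha ih =>
    have ih := ih fun i hi => hx i (mem_insert_of_mem hi)
    have ua := hx a (mem_insert_self _ _)
    have hS : ∑ i ∈ s, x i ∈ Zp p := sum_mem fun i hi => hx i (mem_insert_of_mem hi)
    rw [prod_insert ha, sum_insert ha]
    have h1 : (1 + (p : ℚ) * x a) ∈ Zp p := add_mem (one_mem _) (mul_mem p_mem ua)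
    have h2 : I p 2 ((p : ℚ) ^ 2 * (x a * ∑ i ∈ s, x i)) := ⟨_, mul_mem ua hS, rfl⟩
    refine icg ((ih.mulL h1).add h2) ?_
    ring

theorem rpos (h3 : 3 < p) {i : ℕ} (hi : i < p - 1) : 0 < 3 * (i + 1) % p := by
  rcases Nat.eq_zero_or_pos (3 * (i + 1) % p) with h | h
  · exfalso
    have hd := Nat.dvd_of_mod_eq_zero h
    rcases (hp.out.dvd_mul).1 hd with h | h
    · have := Nat.le_of_dvd (by norm_num) h
      omega
    · have := Nat.le_of_dvd (by omega) h
      omega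
  · exact h

theorem rlt (i : ℕ) : 3 * (i + 1) % p < p := Nat.mod_lt _ hp.out.pos

theorem perm (h3 : 3 < p) :
    ∏ i ∈ range (p - 1), ((3 * (i + 1) % p : ℕ) : ℚ) = ∏ i ∈ range (p - 1), ((i : ℚ) + 1) := by
  have himg : (range (p - 1)).image (fun i => 3 * (i + 1) % p - 1) = range (p - 1) := by
    apply eq_of_subset_of_card_le
    · intro x hx
      obtain ⟨i, hi, rfl⟩ := mem_image.1 hx
      have h1 := rpos h3 (mem_range.1 hi)
      have h2 := rlt (p := p) i
      rw [mem_range]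
      omega
    · rw [card_image_of_injOn]
      intro i hi j hj hij
      have hi' : i < p - 1 := by simpa using hi
      have hj' : j < p - 1 := by simpa using hj
      have h1 := rpos h3 hi'
      have h2 := rpos h3 hj'
      have h4 : 3 * (i + 1) % p = 3 * (j + 1) % p := by
        simp only at hij
        omega
      have h5 : 3 * (i + 1) ≡ 3 * (j + 1) [MOD p] := h4
      have hc : Nat.gcd p 3 = 1 := by
        rw [← Nat.coprime_iff_gcd_eq_one]
        exact (Nat.coprime_primes hp.out Nat.prime_three).2 (by omega)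
      have h6 := Nat.ModEq.cancel_left_of_coprime hc h5
      have h7 := Nat.ModEq.eq_of_lt_of_lt h6 (by omega) (by omega)
      omega
  have hinj : Set.InjOn (fun i => 3 * (i + 1) % p - 1) (range (p - 1) : Set ℕ) := by
    apply injOn_of_card_image_eq
    rw [himg]
  calc ∏ i ∈ range (p - 1), ((3 * (i + 1) % p : ℕ) : ℚ)
      = ∏ i ∈ range (p - 1), (((3 * (i + 1) % p - 1 : ℕ) : ℚ) + 1) := by
        refine prod_congr rfl fun i hi => ?_
        have h1 := rpos h3 (mem_range.1 hi)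
        have e : 3 * (i + 1) % p = (3 * (i + 1) % p - 1) + 1 := by omega
        exact_mod_cast e
    _ = ∏ i ∈ (range (p - 1)).image (fun i => 3 * (i + 1) % p - 1), ((i : ℚ) + 1) := by
        rw [prod_image hinj]
    _ = _ := by rw [himg]

/-- the product formula -/
theorem pow_eq (h3 : 3 < p) : (3 : ℚ) ^ (p - 1) =
    ∏ i ∈ range (p - 1), (1 + (p : ℚ) * (((3 * (i + 1) / p : ℕ) : ℚ) / ((3 * (i + 1) % p : ℕ) : ℚ))) := by
  have h0 : ∏ i ∈ range (p - 1), ((i : ℚ) + 1) ≠ 0 := prod_ne_zero_iff.2 fun i _ => by positivity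
  apply mul_right_cancel₀ h0
  conv_rhs => rw [← perm h3, ← prod_mul_distrib]
  have : (3 : ℚ) ^ (p - 1) = ∏ _i ∈ range (p - 1), (3 : ℚ) := by simp
  rw [this, ← prod_mul_distrib]
  refine prod_congr rfl fun i hi => ?_
  have h1 := rpos h3 (mem_range.1 hi)
  have h2 : ((3 * (i + 1) % p : ℕ) : ℚ) ≠ 0 := by exact_mod_cast h1.ne'
  have h4 : (3 : ℚ) * ((i : ℚ) + 1) = ((3 * (i + 1) % p : ℕ) : ℚ) + p * ((3 * (i + 1) / p : ℕ) : ℚ) := by
    exact_mod_cast (Nat.mod_add_div (3 * (i + 1)) p).symm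
  rw [h4]
  field_simp

theorem term (h3 : 3 < p) {i : ℕ} (hi : i < p - 1) :
    I p 1 (((3 * (i + 1) / p : ℕ) : ℚ) / ((3 * (i + 1) % p : ℕ) : ℚ) -
      1 / 3 * (((3 * (i + 1) / p : ℕ) : ℚ) / ((i : ℚ) + 1))) := by
  have u1 := uNat (p := p) (rpos h3 hi) (rlt i)
  have u2 := uSucc (p := p) (n := p - 1) hi (by omega)
  have u3 := u3 h3
  have h4 : (3 : ℚ) * ((i : ℚ) + 1) = ((3 * (i + 1) % p : ℕ) : ℚ) + p * ((3 * (i + 1) / p : ℕ) : ℚ) := by
    exact_mod_cast (Nat.mod_add_div (3 * (i + 1)) p).symm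
  have hq := nat_mem (p := p) (3 * (i + 1) / p)
  generalize ((3 * (i + 1) % p : ℕ) : ℚ) = r at *
  generalize ((3 * (i + 1) / p : ℕ) : ℚ) = q at *
  refine ⟨q * q / (3 * (((i : ℚ) + 1) * r)), dmem (mul_mem hq hq) (u3.mul (u2.mul u1)), ?_⟩
  have e1 := u1.1
  have e2 := u2.1
  field_simp
  linear_combination q * h4

theorem sumif (M n : ℕ) (h : M ≤ n) :
    ∑ i ∈ range n, (if M < i + 1 then (1 : ℚ) else 0) / ((i : ℚ) + 1) = H n 1 - H M 1 := by
  induction n, h using Nat.le_induction with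
  | base =>
    rw [sub_self]
    refine sum_eq_zero fun i hi => ?_
    have := mem_range.1 hi
    rw [if_neg (by omega), zero_div]
  | succ n hn ih =>
    rw [sum_range_succ, ih, H_succ, if_pos (by omega), pow_one]
    ring

theorem quot (h3 : 3 < p) {k : ℕ} (hk : k < p) :
    ((3 * k / p : ℕ) : ℚ) = (if p / 3 < k then (1 : ℚ) else 0) + (if p - 1 - p / 3 < k then (1 : ℚ) else 0) := by
  have hm : ¬ 3 ∣ p := by
    intro h
    have := (Nat.prime_dvd_prime_iff_eq Nat.prime_three hp.out).1 h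
    omega
  by_cases h1 : p / 3 < k
  · by_cases h2 : p - 1 - p / 3 < k
    · have : 3 * k / p = 2 := Nat.div_eq_of_lt_le (by omega) (by omega)
      rw [if_pos h1, if_pos h2, this]
      norm_num
    · have : 3 * k / p = 1 := Nat.div_eq_of_lt_le (by omega) (by omega)
      rw [if_pos h1, if_neg h2, this]
      norm_num
  · have : 3 * k / p = 0 := Nat.div_eq_of_lt (by omega)
    rw [if_neg h1, if_neg (by omega), this]
    norm_num

theorem refl_sum {a b : ℕ} (hab : a + b = p - 1) : I p 1 (H (p - 1) 1 - (H a 1 - H b 1)) := by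
  have hp1 := hp.out.one_lt
  have e : H (p - 1) 1 = H a 1 + ∑ i ∈ range b, 1 / ((p : ℚ) - ((i : ℚ) + 1)) := by
    rw [← hab]
    unfold H
    rw [sum_range_add]
    congr 1
    rw [← sum_range_reflect]
    refine sum_congr rfl fun i hi => ?_
    have hi' := mem_range.1 hi
    have e : ((a + (b - 1 - i) : ℕ) : ℚ) + 1 = (p : ℚ) - ((i : ℚ) + 1) := by
      have : ((a + (b - 1 - i) : ℕ) : ℚ) + 1 + ((i : ℚ) + 1) = (p : ℚ) := by
        have h2 : a + (b - 1 - i) + 1 + (i + 1) = p := by omega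
        exact_mod_cast h2
      linarith
    rw [pow_one, ← e]
  rw [e]
  have h : I p 1 (∑ i ∈ range b, 1 / ((p : ℚ) - ((i : ℚ) + 1)) - (-H b 1)) :=
    Isum_sub (g := fun i : ℕ => -(1 / ((i : ℚ) + 1))) (fun i hi => by
      have hi' := mem_range.1 hi
      have u := uSucc (p := p) hi' (by omega)
      have u' := psub u
      refine ⟨1 / (((i : ℚ) + 1) * ((p : ℚ) - ((i : ℚ) + 1))), dmem (one_mem _) (u.mul u'), ?_⟩
      have e1 := u.1
      have e2 := u'.1
      field_simp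
      ring) rfl (by
      unfold H; rw [← sum_neg_distrib]; simp only [pow_one])
  exact icg h (by ring)

theorem H_all (h3 : 3 < p) : I p 1 (H (p - 1) 1) := by
  have h := refl_sum (p := p) (a := 0) (b := p - 1) (by omega)
  rw [H_zero] at h
  have h2 : I p 1 ((2 : ℚ) * H (p - 1) 1) := icg h (by ring)
  exact (u2 (p := p) (by omega)).cancel h2

theorem sumq (h3 : 3 < p) :
    I p 1 (∑ i ∈ range (p - 1), ((3 * (i + 1) / p : ℕ) : ℚ) / ((i : ℚ) + 1) - (-2 * H (p / 3) 1)) := by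
  have e : ∑ i ∈ range (p - 1), ((3 * (i + 1) / p : ℕ) : ℚ) / ((i : ℚ) + 1) =
      (H (p - 1) 1 - H (p / 3) 1) + (H (p - 1) 1 - H (p - 1 - p / 3) 1) := by
    rw [← sumif (p / 3) (p - 1) (by omega), ← sumif (p - 1 - p / 3) (p - 1) (by omega),
      ← sum_add_distrib]
    refine sum_congr rfl fun i hi => ?_
    have hi' := mem_range.1 hi
    rw [quot h3 (k := i + 1) (by omega), add_div]
  rw [e]
  have h1 := H_all (p := p) h3
  have h2 := refl_sum (p := p) (a := p / 3) (b := p - 1 - p / 3) (by omega)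
  refine icg (((h1.add h1).add h1).sub h2) ?_
  ring

theorem H3 : Pool.Agent.H547.V1.S_H3 := by
  intro p _ h3
  have e := pow_eq (p := p) h3
  rw [e]
  have h1 : I p 2 (∏ i ∈ range (p - 1), (1 + (p : ℚ) * (((3 * (i + 1) / p : ℕ) : ℚ) / ((3 * (i + 1) % p : ℕ) : ℚ))) -
      (1 + (p : ℚ) * ∑ i ∈ range (p - 1), (((3 * (i + 1) / p : ℕ) : ℚ) / ((3 * (i + 1) % p : ℕ) : ℚ)))) :=
    prod_one_add fun i hi => dmem (nat_mem _) (uNat (rpos h3 (mem_range.1 hi)) (rlt i))
  have h2 : I p 1 (∑ i ∈ range (p - 1), (((3 * (i + 1) / p : ℕ) : ℚ) / ((3 * (i + 1) % p : ℕ) : ℚ)) -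
      1 / 3 * ∑ i ∈ range (p - 1), (((3 * (i + 1) / p : ℕ) : ℚ) / ((i : ℚ) + 1))) :=
    Isum_sub (fun i hi => term h3 (mem_range.1 hi)) rfl (by rw [mul_sum])
  have h3' : I p 1 (1 / 3 * (∑ i ∈ range (p - 1), ((3 * (i + 1) / p : ℕ) : ℚ) / ((i : ℚ) + 1) -
      (-2 * H (p / 3) 1))) := (sumq h3).mulL (dmem (one_mem _) (u3 h3))
  have h4 : I p 2 ((p : ℚ) * ((∑ i ∈ range (p - 1), (((3 * (i + 1) / p : ℕ) : ℚ) / ((3 * (i + 1) % p : ℕ) : ℚ)) -
      1 / 3 * ∑ i ∈ range (p - 1), (((3 * (i + 1) / p : ℕ) : ℚ) / ((i : ℚ) + 1))) +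
      (1 / 3 * (∑ i ∈ range (p - 1), ((3 * (i + 1) / p : ℕ) : ℚ) / ((i : ℚ) + 1) -
      (-2 * H (p / 3) 1))))) := (I_p (p := p)).mul (h2.add h3')
  refine icg (h1.add h4) ?_
  ring

end Pool.Agent.H286.SUN35H3
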